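import Pool.Agent.N201.SQ.Final

/-!
# The error terms of the conjectural formula, for all shifts `|a| ≤ A` at once

No hypothesis is assumed.  The intervals free of prime values come from `Pool.Agent.N201.SQ.rect` (the starting files of
`MP_73869e_nt.ConsecutiveSquares`); the passage to error terms follows `Pool.Agent.N201.SQ.err`, with the absolute values
inside the sum over `a`, and for every shift separately.
-/

set_option autoImplicit false

namespace Pool.Agent.Results.MP_391708_nt.SimultaneousErrorTerms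

open Finset Filter MeasureTheory
open Pool.Agent.N201.SP (li_int li_sub)

/-- the number of `1 ≤ n ≤ N` for which `|n² + a|` is prime -/
def P (a : ℤ) (N : ℕ) : ℕ := ((Icc 1 N).filter (fun n : ℕ => ((n : ℤ) ^ 2 + a).natAbs.Prime)).card

/-- the difference of `P_a(N)` and `κ ∫_2^N dt / log t` -/
noncomputable def E (κ : ℝ) (a : ℤ) (N : ℕ) : ℝ := (P a N : ℝ) - κ * ∫ t in (2 : ℝ)..N, 1 / Real.log t

/-- the function of the record length of the intervals between primes in the starting files -/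
noncomputable def ff (X : ℝ) : ℝ :=
  Real.log X * (Real.log (Real.log X)) ^ 2 * Real.log (Real.log (Real.log (Real.log X))) /
    (Real.log (Real.log (Real.log X))) ^ 2

/-- the pairs `(A, H)` for which the theorem below holds -/
def Adm (c Y : ℝ) (A H : ℕ) : Prop :=
  (A : ℝ) * H ≤ c * Real.log Y * Real.log (Real.log Y) ∨
    (4 * (H : ℝ) ≤ √(Real.log Y) ∧ (2 * (A : ℝ) ≤ Real.log Y ∨ (A : ℝ) * H ≤ c * ff Y))

lemma P_eq (a : ℤ) {m n : ℕ} (hmn : m ≤ n)
    (h : ∀ j : ℕ, m < j → j ≤ n → ¬ ((j : ℤ) ^ 2 + a).natAbs.Prime) : P a n = P a m := by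
  unfold P
  congr 1
  ext j
  simp only [mem_filter, mem_Icc]
  constructor
  · rintro ⟨⟨h1, h2⟩, h3⟩
    refine ⟨⟨h1, ?_⟩, h3⟩
    by_contra h4
    exact h j (by omega) (by omega) h3
  · rintro ⟨⟨h1, h2⟩, h3⟩
    exact ⟨⟨h1, by omega⟩, h3⟩

/-- There are `c > 0` and `Y₀` such that for all real `Y ≥ Y₀`, all natural `M ≥ Y` and all natural `A, H ≥ 1` with
`Adm c Y A H` some `m ≥ M` with `m + H ≤ M + 2 Y` has the following properties: `|n² + a|` is composite, `0` or `1` for all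
`m < n ≤ m + H` and all `|a| ≤ A`; and for all nonnegative `κ_a` the error terms `E_a(N) = P_a(N) - κ_a ∫_2^N dt / log t`
satisfy `max (|E_a(m)|, |E_a(m + H)|) ≥ κ_a H / (4 log M)` for every `|a| ≤ A`, and for every set `S` of such `a` the sum of
`|E_a(N)|` over `S` is at least `(∑ κ_a) H / (4 log M)` for `N = m` or `N = m + H`. -/
theorem result : ∃ c : ℝ, 0 < c ∧ ∃ Y₀ : ℝ, ∀ Y : ℝ, Y₀ ≤ Y → ∀ M : ℕ, Y ≤ M → ∀ A H : ℕ, 1 ≤ A → 1 ≤ H →
    Adm c Y A H → ∃ m : ℕ, M ≤ m ∧ ((m + H : ℕ) : ℝ) ≤ M + 2 * Y ∧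
      (∀ n : ℕ, m < n → n ≤ m + H → ∀ a : ℤ, |a| ≤ A → ¬ ((n : ℤ) ^ 2 + a).natAbs.Prime) ∧
      ∀ κ : ℤ → ℝ, (∀ a, 0 ≤ κ a) →
        (∀ a : ℤ, |a| ≤ A → κ a * (H / (4 * Real.log M)) ≤ max |E (κ a) a m| |E (κ a) a (m + H)|) ∧
        ∀ S : Finset ℤ, (∀ a ∈ S, |a| ≤ (A : ℤ)) → ∃ N : ℕ, (N = m ∨ N = m + H) ∧
          (∑ a ∈ S, κ a) * (H / (4 * Real.log M)) ≤ ∑ a ∈ S, |E (κ a) a N| := by
  obtain ⟨c, hc, hc1, Y₁, hrect⟩ := Pool.Agent.N201.SQ.rect 2
  obtain ⟨L₀, hev⟩ := Pool.Agent.N201.SQ.ev_main 2 1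
  refine ⟨c, hc, max Y₁ (Real.exp (max L₀ 10000)), fun Y hY M hMY A H hA hH hadm => ?_⟩
  have hYe := (le_max_right _ _).trans hY
  have hY0 : 0 < Y := lt_of_lt_of_le (Real.exp_pos _) hYe
  obtain ⟨L, hL⟩ : ∃ L, L = Real.log Y := ⟨_, rfl⟩
  have hLmax : max L₀ 10000 ≤ L := by
    rw [hL, ← Real.log_exp (max L₀ 10000)]
    exact Real.log_le_log (Real.exp_pos _) hYe
  have hYexp : Y = Real.exp L := by rw [hL]; exact (Real.exp_log hY0).symm
  obtain ⟨f1, f2, f3, f4, f5, f6, f7⟩ := hev L ((le_max_left _ _).trans hLmax)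
  have hL0 : 0 < L := by linarith
  have hl0 : 0 < Real.log L := Real.log_pos (by linarith)
  have hlL : Real.log L ≤ L := (Real.log_le_sub_one_of_pos hL0).trans (by linarith)
  have hA1 : (1 : ℝ) ≤ A := by exact_mod_cast hA
  have hH1 : (1 : ℝ) ≤ H := by exact_mod_cast hH
  have hadm' : (A : ℝ) * H ≤ c * L * Real.log L ∨
      (16 * (H : ℝ) ^ 2 ≤ L ∧ (2 * (A : ℝ) ≤ L ∨ (A : ℝ) * H ≤ c * Pool.Agent.H256R2.SC.ff Y)) := by
    rcases hadm with h1 | ⟨h1, h2⟩
    · left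
      rw [hL]
      exact h1
    · right
      refine ⟨?_, ?_⟩
      · rw [← hL] at h1
        have h4 := Real.sq_sqrt hL0.le
        have h5 : (4 * (H : ℝ)) ^ 2 ≤ (√L) ^ 2 := pow_le_pow_left₀ (by positivity) h1 2
        rw [h4] at h5
        linarith
      · rw [hL]
        exact h2
  have hHL2 : (H : ℝ) ≤ L ^ 2 := by
    rcases hadm' with h1 | ⟨h1, -⟩
    · calc (H : ℝ) = 1 * H := by ring
        _ ≤ A * H := mul_le_mul_of_nonneg_right hA1 (by linarith)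
        _ ≤ c * L * Real.log L := h1
        _ ≤ 1 * L * L := by gcongr
        _ = L ^ 2 := by ring
    · nlinarith
  rw [← hYexp] at f3
  have hHY : (H : ℝ) ≤ Y := by
    have : 0 ≤ L ^ 2 := by positivity
    linarith
  obtain ⟨x, hx1, hx2, hx3⟩ := hrect Y ((le_max_left _ _).trans hY) (M : ℤ) (by exact_mod_cast hMY)
    A H (Finset.Ico (0 : ℤ) H) hA hH (by
      rw [← hL]
      rcases hadm' with h1 | h1
      · left
        refine ⟨by simp, ?_, h1⟩
        intro k hk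
        rw [Finset.mem_Ico] at hk
        have k1' : (0 : ℝ) ≤ k := by exact_mod_cast hk.1
        have k2' : (k : ℝ) ≤ H := by exact_mod_cast hk.2.le
        rw [abs_of_nonneg k1']
        linarith
      · right
        exact ⟨rfl, h1⟩)
  have hx0 : 0 ≤ x := by
    have : (0 : ℤ) ≤ (M : ℤ) := Int.natCast_nonneg M
    linarith
  obtain ⟨X, rfl⟩ := Int.eq_ofNat_of_zero_le hx0
  have hMX : M < X := by exact_mod_cast hx1
  have hXle : (X : ℝ) ≤ M + Y := by exact_mod_cast hx2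
  obtain ⟨m, hm⟩ : ∃ m, m = X - 1 := ⟨_, rfl⟩
  have hmM : M ≤ m := by omega
  have hmX : m + 1 = X := by omega
  have hgap : ∀ n : ℕ, m < n → n ≤ m + H → ∀ a : ℤ, |a| ≤ A → ¬ ((n : ℤ) ^ 2 + a).natAbs.Prime := by
    intro j hj1 hj2 a ha
    have h4 := hx3 ((j : ℤ) - X) (by
      rw [Finset.mem_Ico]
      constructor <;> omega) a ha
    have e : (X : ℤ) + ((j : ℤ) - X) = j := by ring
    rw [e] at h4
    exact h4
  have hPeq : ∀ a : ℤ, |a| ≤ A → P a (m + H) = P a m := by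
    intro a ha
    apply P_eq a (Nat.le_add_right _ _)
    intro j hj1 hj2
    exact hgap j hj1 hj2 a ha
  have hMR : Y ≤ (M : ℝ) := hMY
  have hY4 : 4 ≤ Y := by
    have := Real.add_one_le_exp L
    rw [← hYexp] at this
    linarith
  have hM4 : (4 : ℝ) ≤ M := by linarith
  have hmR : (M : ℝ) ≤ m := by exact_mod_cast hmM
  have hm2 : (2 : ℝ) ≤ m := by linarith
  have hmle : (m : ℝ) + 1 ≤ M + Y := by
    have : ((m + 1 : ℕ) : ℝ) ≤ M + Y := by rw [hmX]; exact hXle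
    push_cast at this
    exact this
  have hmH : ((m + H : ℕ) : ℝ) ≤ M + 2 * Y := by
    push_cast
    linarith
  have hlogM : 0 < Real.log M := Real.log_pos (by linarith)
  have hlog : Real.log ((m + H : ℕ) : ℝ) ≤ 2 * Real.log M := by
    have h5 : ((m + H : ℕ) : ℝ) ≤ (M : ℝ) ^ 2 := by nlinarith
    have h6 := Real.log_le_log (by push_cast; linarith) h5
    rw [Real.log_pow, Nat.cast_ofNat] at h6
    exact h6
  have hlog0 : 0 < Real.log ((m + H : ℕ) : ℝ) := Real.log_pos (by push_cast; linarith)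
  have hli := li_sub hm2 (show (m : ℝ) ≤ ((m + H : ℕ) : ℝ) by push_cast; linarith)
  have hli' : (H : ℝ) / (2 * Real.log M) ≤ (∫ t in (2 : ℝ)..((m + H : ℕ) : ℝ), 1 / Real.log t) -
      ∫ t in (2 : ℝ)..m, 1 / Real.log t := by
    refine le_trans ?_ hli
    have e : ((m + H : ℕ) : ℝ) - m = H := by push_cast; ring
    rw [e]
    exact div_le_div_of_nonneg_left (Nat.cast_nonneg _) hlog0 hlog
  refine ⟨m, hmM, hmH, hgap, fun κ hκ => ?_⟩
  obtain ⟨I₁, hI₁⟩ : ∃ I₁, I₁ = ∫ t in (2 : ℝ)..m, 1 / Real.log t := ⟨_, rfl⟩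
  obtain ⟨I₂, hI₂⟩ : ∃ I₂, I₂ = ∫ t in (2 : ℝ)..((m + H : ℕ) : ℝ), 1 / Real.log t := ⟨_, rfl⟩
  rw [← hI₁, ← hI₂] at hli'
  have hhalf : (H : ℝ) / (4 * Real.log M) = (H / (2 * Real.log M)) / 2 := by
    rw [div_div]
    ring
  have hE1 : ∀ a : ℤ, E (κ a) a m = (P a m : ℝ) - κ a * I₁ := by
    intro a
    unfold E
    rw [← hI₁]
  have hE2 : ∀ a : ℤ, |a| ≤ A → E (κ a) a (m + H) = (P a m : ℝ) - κ a * I₂ := by
    intro a ha
    unfold E
    rw [← hI₂, hPeq a ha]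
  have hone : ∀ a : ℤ, |a| ≤ A → κ a * ((H : ℝ) / (2 * Real.log M)) ≤
      |E (κ a) a m| + |E (κ a) a (m + H)| := by
    intro a ha
    rw [hE1 a, hE2 a ha]
    calc κ a * ((H : ℝ) / (2 * Real.log M)) ≤ κ a * (I₂ - I₁) := mul_le_mul_of_nonneg_left hli' (hκ a)
      _ = ((P a m : ℝ) - κ a * I₁) - ((P a m : ℝ) - κ a * I₂) := by ring
      _ ≤ _ := by
          have g1 := le_abs_self ((P a m : ℝ) - κ a * I₁)
          have g2 := neg_abs_le ((P a m : ℝ) - κ a * I₂)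
          linarith
  refine ⟨fun a ha => ?_, fun S hS => ?_⟩
  · have h1 := hone a ha
    have h2 : κ a * ((H : ℝ) / (4 * Real.log M)) = κ a * ((H : ℝ) / (2 * Real.log M)) / 2 := by
      rw [hhalf]; ring
    rw [h2]
    rcases le_total |E (κ a) a m| |E (κ a) a (m + H)| with hle | hle
    · rw [max_eq_right hle]; linarith
    · rw [max_eq_left hle]; linarith
  · have h1 : (∑ a ∈ S, κ a) * ((H : ℝ) / (2 * Real.log M)) ≤
        ∑ a ∈ S, |E (κ a) a m| + ∑ a ∈ S, |E (κ a) a (m + H)| := by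
      rw [Finset.sum_mul, ← Finset.sum_add_distrib]
      exact Finset.sum_le_sum fun a ha => hone a (hS a ha)
    have h2 : (∑ a ∈ S, κ a) * ((H : ℝ) / (4 * Real.log M)) =
        (∑ a ∈ S, κ a) * ((H : ℝ) / (2 * Real.log M)) / 2 := by
      rw [hhalf]; ring
    rcases le_total (∑ a ∈ S, |E (κ a) a m|) (∑ a ∈ S, |E (κ a) a (m + H)|) with hle | hle
    · exact ⟨m + H, Or.inr rfl, by rw [h2]; linarith⟩
    · exact ⟨m, Or.inl rfl, by rw [h2]; linarith⟩

end Pool.Agent.Results.MP_391708_nt.SimultaneousErrorTerms
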