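import Mathlib
import Pool.Agent.N792.TE2P
import Pool.Agent.N792.T9P

/-!
# The numbers `n² + a = p q` with prime factors of prescribed size, for almost all `a ≤ A`, `A ≥ N^(1/2+ε)`

For every `A` with `N^(1/2 + ε) ≤ A ≤ N`, all but at most `A / (log N)^B` of the `a ≤ A` have the following
property: the number of the `n` in `(u, v]`, `N / R ≤ u ≤ v ≤ N`, for which `n² + a` is a product of two primes
`p`, `q` with `y₁ < p ≤ y₂` is given by the formula which the heuristics of Hardy and Littlewood predict, with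
the full constant `h_a` of the problem and the error `N / (log N)^B`, for all intervals `(y₁, y₂]` between
`N^(3/2 + ε) / A` and `N^(1 - ε)`. For `A = N` the prime `p` runs from `N^(1/2 + ε)` to `N^(1 - ε)`, and `q` from
`N^(1 + ε)` to `N^(3/2 - ε)`. The family of the `a` is thin: for a given `n ≤ N` the `A` numbers `n² + a` cover
only a short part of the way to `(n + 1)²`, and only `N^(3/2 + ε)` of the `N²` integers up to `N²` are of the form
`n² + a`. Every individual `n² + a` has the two forms `prime` and `product of two primes`, which the sieve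
cannot distinguish; the formula counts the numbers of one kind of factorisation asymptotically.

Proof. The theorem is the case of the polynomials `m² + c` of the theorem `te2_m` of the library of helper792
(Cauchy's inequality over the triples of `a`, `p` and a root modulo `p`, and a double large sieve over the pairs
of a frequency and the cofactor `q`; the constants are compared with the products over the primes for almost
all `a`).
-/

set_option autoImplicit false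

namespace Pool.Agent.Results.MP_391708_nt.TwoPrimeFactors

open Finset Filter Topology

open Classical in
/-- the number of `u < n ≤ v` for which `n² + a = p q` with primes `p`, `q` and `y₁ < p ≤ y₂` -/
noncomputable def twoPrimes (a u v y₁ y₂ : ℕ) : ℕ :=
  #((Ioc u v).filter (fun n : ℕ => ∃ p q : ℕ, p.Prime ∧ q.Prime ∧ y₁ < p ∧ p ≤ y₂ ∧ n ^ 2 + a = p * q))

/-- the product of `1 - (-a | w) / (w - 1)` over the odd primes `w ≤ X` -/
noncomputable def hprod (a : ℤ) (X : ℕ) : ℝ :=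
  ∏ w ∈ (range (X + 1)).filter (fun w => Nat.Prime w ∧ w ≠ 2), (1 - (jacobiSym (-a) w : ℝ) / ((w : ℝ) - 1))

lemma two_eq (a u v y₁ y₂ : ℕ) : Pool.Agent.N792.twoC 1 0 (a : ℤ) u v y₁ y₂ = twoPrimes a u v y₁ y₂ := by
  classical
  unfold Pool.Agent.N792.twoC twoPrimes
  congr 1
  apply filter_congr
  intro m _
  constructor
  · rintro ⟨p, q, h1, h2, h3, h4, h5⟩
    refine ⟨p, q, h1, h2, h3, h4, ?_⟩
    have h6 : ((m ^ 2 + a : ℕ) : ℤ) = ((p * q : ℕ) : ℤ) := by
      push_cast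
      linarith
    exact_mod_cast h6
  · rintro ⟨p, q, h1, h2, h3, h4, h5⟩
    refine ⟨p, q, h1, h2, h3, h4, ?_⟩
    have h6 : ((m ^ 2 + a : ℕ) : ℤ) = ((p * q : ℕ) : ℤ) := by rw [h5]
    push_cast at h6
    linarith

/-- **Products of two primes of prescribed size among the values of almost all `n² + a`, `a ≤ A`,
`N^(1/2+ε) ≤ A ≤ N`.** Let `ε > 0`, `R` and `B` be fixed. For `N ≥ N₀` and every `A` with
`N^(1/2 + ε) ≤ A ≤ N`, all but at most `A / (log N)^B` of the `1 ≤ a ≤ A` have the following property: the product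
`h_a` converges to a number `h > 0`, and for all `N / R ≤ u ≤ v ≤ N` and all `y₁ ≤ y₂ ≤ N^(1 - ε)` with
`N^(3/2 + ε) ≤ A y₁` the number of the `u < n ≤ v` for which `n² + a = p q` with primes `p`, `q`, `y₁ < p ≤ y₂`,
differs from `h ∑_{u < n ≤ v} ∑_{y₁ < p ≤ y₂} 1 / (p log ((n² + a) / p))` by at most `N / (log N)^B`. -/
theorem result (ε : ℝ) (hε : 0 < ε) (R B : ℕ) :
    ∃ N₀ : ℕ, ∀ N : ℕ, N₀ ≤ N → ∀ A : ℕ, (N : ℝ) ^ (1 / 2 + ε) ≤ A → A ≤ N →
    ∃ Ex ⊆ Icc 1 A, (#Ex : ℝ) ≤ A / Real.log N ^ B ∧ ∀ a ∈ Icc 1 A, a ∉ Ex →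
      ∃ h : ℝ, 0 < h ∧ Tendsto (fun X : ℕ => hprod a X) atTop (𝓝 h) ∧
        ∀ u v y₁ y₂ : ℕ, N ≤ R * u → u ≤ v → v ≤ N → (N : ℝ) ^ (3 / 2 + ε) ≤ A * y₁ → y₁ ≤ y₂ →
          (y₂ : ℝ) ≤ (N : ℝ) ^ (1 - ε) →
          |(twoPrimes a u v y₁ y₂ : ℝ) - h * ∑ n ∈ Ioc u v, ∑ p ∈ (Ioc y₁ y₂).filter Nat.Prime,
            1 / ((p : ℝ) * Real.log (((n : ℝ) ^ 2 + a) / p))| ≤ N / Real.log N ^ B := by
  obtain ⟨N0, h⟩ := Pool.Agent.N792.te2_m 1 one_pos 0 ε hε R B
  refine ⟨N0, fun N hN A hA1 hA2 => ?_⟩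
  obtain ⟨Ex, hE1, hE2, hE3⟩ := h N hN A hA1 hA2
  refine ⟨Ex, hE1, hE2, fun a ha haE => ?_⟩
  have haI := mem_Icc.1 ha
  obtain ⟨S, hS0, hSt, hb⟩ := hE3 a ha haE (Pool.Agent.N792.adm_one a haI.1)
  refine ⟨S, hS0, ?_, fun u v y₁ y₂ hxu huv hvx hy1 hy12 hy2 => ?_⟩
  · refine hSt.congr fun X => ?_
    exact Pool.Agent.N792.partialC_one a X
  have k1 := hb u v y₁ y₂ hxu huv hvx hy1 hy12 hy2
  have he : Pool.Agent.N792.eps 1 0 = 1 := by unfold Pool.Agent.N792.eps; norm_num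
  have hg : Pool.Agent.N792.gcdProd 1 0 = 1 := by unfold Pool.Agent.N792.gcdProd; simp
  rw [two_eq, he, hg, one_mul, mul_one] at k1
  have e1 : ∀ n : ℕ, (((1 : ℤ) : ℝ) * (n : ℝ) ^ 2 + ((0 : ℤ) : ℝ) * n + (a : ℝ)) = (n : ℝ) ^ 2 + a := by
    intro n
    push_cast
    ring
  have e2 : ∑ m ∈ Ioc u v, ∑ p ∈ (Ioc y₁ y₂).filter Nat.Prime,
      1 / ((p : ℝ) * Real.log ((((1 : ℤ) : ℝ) * (m : ℝ) ^ 2 + ((0 : ℤ) : ℝ) * m + (a : ℝ)) / p)) =
      ∑ n ∈ Ioc u v, ∑ p ∈ (Ioc y₁ y₂).filter Nat.Prime, 1 / ((p : ℝ) * Real.log (((n : ℝ) ^ 2 + a) / p)) := by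
    apply sum_congr rfl
    intro n _
    rw [e1]
  rw [← e2]
  exact_mod_cast k1

end Pool.Agent.Results.MP_391708_nt.TwoPrimeFactors
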